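import Mathlib

set_option autoImplicit false
set_option linter.unusedSectionVars false

/-!
The class of rational finitely presented actions does not have the amalgamation property.
-/

open Finset

noncomputable section

namespace Pool.Agent.Results.MP_66eb21_an.NoAmalgamation

/-- The space `E_{F,I}`: finitely supported real functions on `F × I`. -/
abbrev E (F I : Type) : Type := (F × I) →₀ ℝ

/-- The basis vector `x_{g,i}`. -/
def bas {F I : Type} (g : F) (i : I) : E F I := Finsupp.single (g, i) 1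

/-- The linear action of `F` on `E_{F,I}` with `g • x_{f,i} = x_{gf,i}`. -/
def act {F I : Type} [Group F] (g : F) : E F I →ₗ[ℝ] E F I :=
  Finsupp.lmapDomain ℝ ℝ (fun k => (g * k.1, k.2))

/-- Admissible finite sets. -/
structure Admissible {F I : Type} [Group F] (W : Set (E F I)) : Prop where
  finite : W.Finite
  zero_mem : 0 ∈ W
  neg_mem : ∀ w ∈ W, -w ∈ W
  act_mem : ∀ (g : F), ∀ w ∈ W, act g w ∈ W
  diff_mem : ∀ i j : I, i ≠ j → bas 1 i - bas 1 j ∈ W
  bas_mem : ∀ (g : F) (i : I), bas g i ∈ W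

/-- Partial `F`-norms on `W` (only the values of `n` on `W` matter). -/
structure PartNorm {F I : Type} [Group F] (W : Set (E F I)) (n : E F I → ℝ) : Prop where
  nonneg : ∀ w ∈ W, 0 ≤ n w
  eq_zero_iff : ∀ w ∈ W, n w = 0 ↔ w = 0
  smul : ∀ w ∈ W, ∀ a : ℝ, a • w ∈ W → n (a • w) = |a| * n w
  sum_le : ∀ w ∈ W, ∀ (m : ℕ) (a : Fin m → ℝ) (v : Fin m → E F I), (∀ k, v k ∈ W) →
    w = ∑ k, a k • v k → n w ≤ ∑ k, |a k| * n (v k)
  act : ∀ (g : F), ∀ w ∈ W, n (act g w) = n w

/-- The values `∑ |β_j| ‖w_j‖'` over all ways to write `x = ∑ β_j w_j` with `w_j` in `W`. -/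
def costs {F I : Type} (W : Set (E F I)) (n : E F I → ℝ) (x : E F I) : Set ℝ :=
  {r | ∃ (m : ℕ) (b : Fin m → ℝ) (w : Fin m → E F I), (∀ j, w j ∈ W) ∧
    x = ∑ j, b j • w j ∧ r = ∑ j, |b j| * n (w j)}

/-- `N` is the maximal extension of a rational partial `F`-norm on an admissible set contained in
the rational span of the basis. -/
def IsRatPres {F I : Type} [Group F] (N : E F I → ℝ) : Prop :=
  ∃ (W : Set (E F I)) (n : E F I → ℝ), Admissible W ∧ PartNorm W n ∧
    (∀ w ∈ W, ∀ k, ∃ q : ℚ, w k = q) ∧ (∀ w ∈ W, ∃ q : ℚ, n w = q) ∧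
    ∀ x, IsLeast (costs W n x) (N x)

/-- Rational finitely presented actions: a finite group `F`, a nonempty finite set `I` and the
norm on `E_{F,I}`. -/
structure RatAction where
  /-- the group -/
  F : Type
  /-- the index set -/
  I : Type
  [grp : Group F]
  finF : Finite F
  finI : Finite I
  neI : Nonempty I
  /-- the norm on `E_{F,I}` -/
  N : E F I → ℝ
  pres : IsRatPres N

attribute [instance] RatAction.grp

/-- Embeddings. -/
structure Emb (A B : RatAction) where
  /-- the group homomorphism -/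
  phi : A.F →* B.F
  phi_inj : Function.Injective phi
  /-- the map of index sets -/
  psi : A.I → B.I
  psi_inj : Function.Injective psi
  isometric : ∀ v : E A.F A.I, B.N (Finsupp.lmapDomain ℝ ℝ (Prod.map phi psi) v) = A.N v

/-- The amalgamation property of the class of all rational finitely presented actions. -/
def Amalgamation : Prop :=
  ∀ (A B C : RatAction) (e₁ : Emb A B) (e₂ : Emb A C), ∃ (D : RatAction) (f₁ : Emb B D)
    (f₂ : Emb C D), f₁.phi.comp e₁.phi = f₂.phi.comp e₂.phi ∧ f₁.psi ∘ e₁.psi = f₂.psi ∘ e₂.psi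

section basics

variable {F I : Type} [Group F]

theorem act_bas (g f : F) (i : I) : act g (bas f i) = bas (g * f) i := by
  simp [act, bas, Finsupp.mapDomain_single]

theorem act_apply (g h : F) (i : I) (v : E F I) : act g v (h, i) = v (g⁻¹ * h, i) := by
  have hinj : Function.Injective (fun k : F × I => (g * k.1, k.2)) := by
    rintro ⟨a, b⟩ ⟨c, d⟩ h
    simp only [Prod.mk.injEq, mul_right_inj] at h
    exact Prod.ext h.1 h.2
  have := Finsupp.mapDomain_apply hinj v (g⁻¹ * h, i)
  simp only [mul_inv_cancel_left] at this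
  exact this

theorem act_act (g h : F) (v : E F I) : act g (act h v) = act (g * h) v := by
  ext ⟨k, i⟩
  rw [act_apply, act_apply, act_apply, mul_inv_rev, mul_assoc]

theorem act_one (v : E F I) : act 1 v = v := by
  ext ⟨k, i⟩
  rw [act_apply, inv_one, one_mul]

variable {W : Set (E F I)} {n : E F I → ℝ}

theorem costs_add {x y : E F I} {r s : ℝ} (hr : r ∈ costs W n x) (hs : s ∈ costs W n y) :
    r + s ∈ costs W n (x + y) := by
  obtain ⟨m, b, w, hw, hx, rfl⟩ := hr
  obtain ⟨m', b', w', hw', hy, rfl⟩ := hs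
  refine ⟨m + m', Fin.append b b', Fin.append w w', fun j => ?_, ?_, ?_⟩
  · refine Fin.addCases (fun i => ?_) (fun i => ?_) j
    · rw [Fin.append_left]; exact hw i
    · rw [Fin.append_right]; exact hw' i
  · rw [Fin.sum_univ_add]
    simp only [Fin.append_left, Fin.append_right]
    rw [hx, hy]
  · rw [Fin.sum_univ_add]
    simp only [Fin.append_left, Fin.append_right]

theorem costs_smul {x : E F I} {r : ℝ} (c : ℝ) (hr : r ∈ costs W n x) :
    |c| * r ∈ costs W n (c • x) := by
  obtain ⟨m, b, w, hw, hx, rfl⟩ := hr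
  refine ⟨m, fun j => c * b j, w, hw, ?_, ?_⟩
  · rw [hx, Finset.smul_sum]
    exact Finset.sum_congr rfl fun j _ => by rw [smul_smul]
  · rw [Finset.mul_sum]
    exact Finset.sum_congr rfl fun j _ => by rw [abs_mul, mul_assoc]

theorem costs_act (hW : Admissible W) (hn : PartNorm W n) {x : E F I} {r : ℝ} (g : F)
    (hr : r ∈ costs W n x) : r ∈ costs W n (act g x) := by
  obtain ⟨m, b, w, hw, hx, rfl⟩ := hr
  refine ⟨m, b, fun j => act g (w j), fun j => hW.act_mem g _ (hw j), ?_, ?_⟩
  · rw [hx, map_sum]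
    exact Finset.sum_congr rfl fun j _ => by rw [map_smul]
  · exact Finset.sum_congr rfl fun j _ => by rw [hn.act g _ (hw j)]

theorem costs_mem {w : E F I} (hw : w ∈ W) (c : ℝ) : |c| * n w ∈ costs W n (c • w) :=
  ⟨1, fun _ => c, fun _ => w, fun _ => hw, by simp, by simp⟩

theorem costs_zero : (0 : ℝ) ∈ costs W n (0 : E F I) :=
  ⟨0, fun _ => 0, fun _ => 0, fun j => j.elim0, by simp, by simp⟩

theorem costs_nonempty [Finite F] [Finite I] (hW : Admissible W) (x : E F I) :
    (costs W n x).Nonempty := by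
  induction x using Finsupp.induction_linear with
  | zero => exact ⟨0, costs_zero⟩
  | add f g hf hg =>
    obtain ⟨r, hr⟩ := hf
    obtain ⟨s, hs⟩ := hg
    exact ⟨r + s, costs_add hr hs⟩
  | single a c =>
    refine ⟨|c| * n (bas a.1 a.2), ?_⟩
    have h := costs_mem (n := n) (hW.bas_mem a.1 a.2) c
    have h2 : c • bas a.1 a.2 = (Finsupp.single a c : E F I) := by
      simp [bas]
    rwa [h2] at h

theorem costs_nonneg (hn : PartNorm W n) {x : E F I} {r : ℝ} (hr : r ∈ costs W n x) : 0 ≤ r := by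
  obtain ⟨m, b, w, hw, hx, rfl⟩ := hr
  exact Finset.sum_nonneg fun j _ => mul_nonneg (abs_nonneg _) (hn.nonneg _ (hw j))

/-- The minimum in the definition of the maximal extension is attained. -/
theorem exists_isLeast [Finite F] [Finite I] (hW : Admissible W) (hn : PartNorm W n)
    (x : E F I) : ∃ r, IsLeast (costs W n x) r := by
  classical
  -- coefficient vectors
  have : Fintype W := hW.finite.fintype
  let cost : (W → ℝ) → ℝ := fun β => ∑ w : W, |β w| * n w
  let S : Set (W → ℝ) := {β | β ⟨0, hW.zero_mem⟩ = 0 ∧ ∑ w : W, β w • (w : E F I) = x}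
  have hmerge : ∀ r ∈ costs W n x, ∃ β ∈ S, cost β ≤ r := by
    rintro r ⟨m, b, w, hw, hx, rfl⟩
    let β : W → ℝ := fun u => if (u : E F I) = 0 then 0 else
      ∑ j ∈ univ.filter (fun j => w j = u), b j
    refine ⟨β, ⟨by simp [β], ?_⟩, ?_⟩
    · have h1 : ∀ u : W, β u • (u : E F I) =
          ∑ j ∈ univ.filter (fun j => w j = u), b j • w j := by
        intro u
        by_cases hu : (u : E F I) = 0
        · rw [hu, smul_zero]
          symm
          refine Finset.sum_eq_zero fun j hj => ?_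
          rw [(Finset.mem_filter.1 hj).2, smul_zero]
        · simp only [β, if_neg hu]
          rw [Finset.sum_smul]
          exact Finset.sum_congr rfl fun j hj => by rw [(Finset.mem_filter.1 hj).2]
      rw [Finset.sum_congr rfl fun u _ => h1 u, hx]
      have h2 := Finset.sum_fiberwise_of_maps_to (s := univ) (t := univ)
        (g := fun j => (⟨w j, hw j⟩ : W)) (fun j _ => Finset.mem_univ _) (fun j => b j • w j)
      rw [← h2]
      refine Finset.sum_congr rfl fun u _ => Finset.sum_congr ?_ fun _ _ => rfl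
      ext j
      simp [Subtype.ext_iff]
    · have h1 : ∀ u : W, |β u| * n u ≤
          ∑ j ∈ univ.filter (fun j => w j = u), |b j| * n (w j) := by
        intro u
        by_cases hu : (u : E F I) = 0
        · simp only [β, if_pos hu, abs_zero, zero_mul]
          exact Finset.sum_nonneg fun j _ => mul_nonneg (abs_nonneg _) (hn.nonneg _ (hw j))
        · simp only [β, if_neg hu]
          calc _ ≤ (∑ j ∈ univ.filter (fun j => w j = u), |b j|) * n u :=
                mul_le_mul_of_nonneg_right (Finset.abs_sum_le_sum_abs _ _) (hn.nonneg _ u.2)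
            _ = _ := by
                rw [Finset.sum_mul]
                exact Finset.sum_congr rfl fun j hj => by rw [(Finset.mem_filter.1 hj).2]
      refine (Finset.sum_le_sum fun u _ => h1 u).trans (le_of_eq ?_)
      have h2 := Finset.sum_fiberwise_of_maps_to (s := univ) (t := univ)
        (g := fun j => (⟨w j, hw j⟩ : W)) (fun j _ => Finset.mem_univ _)
        (fun j => |b j| * n (w j))
      rw [← h2]
      refine Finset.sum_congr rfl fun u _ => Finset.sum_congr ?_ fun _ _ => rfl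
      ext j
      simp [Subtype.ext_iff]
  have hback : ∀ β ∈ S, cost β ∈ costs W n x := by
    rintro β ⟨-, hβ⟩
    let e := Fintype.equivFin W
    refine ⟨Fintype.card W, fun j => β (e.symm j), fun j => (e.symm j : E F I),
      fun j => (e.symm j).2, ?_, ?_⟩
    · rw [← hβ]
      exact (Equiv.sum_comp e.symm (fun w : W => β w • (w : E F I))).symm
    · exact (Equiv.sum_comp e.symm (fun w : W => |β w| * n w)).symm
  obtain ⟨r0, hr0⟩ := costs_nonempty (n := n) hW x
  obtain ⟨β0, hβ0, -⟩ := hmerge r0 hr0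
  -- compactness
  have hcont : Continuous cost := by
    refine continuous_finsetSum _ fun w _ => ?_
    exact ((continuous_apply w).abs).mul continuous_const
  have hclosed : IsClosed (S ∩ {β | cost β ≤ cost β0}) := by
    refine IsClosed.inter (IsClosed.inter ?_ ?_) (isClosed_le hcont continuous_const)
    · exact isClosed_eq (continuous_apply _) continuous_const
    · have : {β : W → ℝ | ∑ w : W, β w • (w : E F I) = x} =
          ⋂ k : F × I, {β : W → ℝ | ∑ w : W, β w * (w : E F I) k = x k} := by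
        ext β
        simp only [Set.mem_ofPred_eq, Set.mem_iInter]
        rw [DFunLike.ext_iff]
        refine forall_congr' fun k => ?_
        rw [Finsupp.finsetSum_apply]
        simp
      change IsClosed {β : W → ℝ | ∑ w : W, β w • (w : E F I) = x}
      rw [this]
      refine isClosed_iInter fun k => isClosed_eq ?_ continuous_const
      exact continuous_finsetSum _ fun w _ => (continuous_apply w).mul continuous_const
  obtain ⟨c, hc, hcn⟩ : ∃ c : ℝ, 0 < c ∧ ∀ w : W, (w : E F I) ≠ 0 → c ≤ n w := by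
    have hfin : (Set.range fun w : W => if (w : E F I) = 0 then (1 : ℝ) else n w).Finite :=
      Set.finite_range _
    have hne : (Set.range fun w : W => if (w : E F I) = 0 then (1 : ℝ) else n w).Nonempty :=
      ⟨_, ⟨0, hW.zero_mem⟩, rfl⟩
    obtain ⟨w, hw⟩ := hne.csInf_mem hfin
    refine ⟨sInf (Set.range fun w : W => if (w : E F I) = 0 then (1 : ℝ) else n w), ?_, ?_⟩
    · rw [← hw]
      dsimp only
      split_ifs with h
      · exact one_pos
      · exact lt_of_le_of_ne (hn.nonneg _ w.2) (fun h' => h ((hn.eq_zero_iff _ w.2).1 h'.symm))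
    · intro w hw
      refine csInf_le hfin.bddBelow ⟨w, ?_⟩
      simp [hw]
  have hbdd : Bornology.IsBounded (S ∩ {β | cost β ≤ cost β0}) := by
    rw [isBounded_iff_forall_norm_le]
    refine ⟨cost β0 / c, fun β hβ => ?_⟩
    have hcost : 0 ≤ cost β0 := Finset.sum_nonneg fun w _ =>
      mul_nonneg (abs_nonneg _) (hn.nonneg _ w.2)
    rw [pi_norm_le_iff_of_nonneg (by positivity)]
    intro w
    by_cases hw : (w : E F I) = 0
    · have : w = ⟨0, hW.zero_mem⟩ := Subtype.ext hw
      rw [this, hβ.1.1, norm_zero]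
      positivity
    · rw [Real.norm_eq_abs, le_div_iff₀ hc]
      calc |β w| * c ≤ |β w| * n w := mul_le_mul_of_nonneg_left (hcn w hw) (abs_nonneg _)
        _ ≤ cost β := Finset.single_le_sum (f := fun w : W => |β w| * n w)
            (fun w _ => mul_nonneg (abs_nonneg _) (hn.nonneg _ w.2)) (Finset.mem_univ w)
        _ ≤ cost β0 := hβ.2
  have hcomp : IsCompact (S ∩ {β | cost β ≤ cost β0}) :=
    Metric.isCompact_of_isClosed_isBounded hclosed hbdd
  obtain ⟨β, hβ, hmin⟩ := hcomp.exists_isMinOn ⟨β0, hβ0, (le_refl _ : cost β0 ≤ cost β0)⟩ hcont.continuousOn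
  refine ⟨cost β, hback β hβ.1, ?_⟩
  intro r hr
  obtain ⟨γ, hγ, hγr⟩ := hmerge r hr
  by_cases h : cost γ ≤ cost β0
  · exact (hmin ⟨hγ, h⟩).trans hγr
  · exact (hβ.2.trans (not_le.1 h).le).trans hγr

end basics


/-- A rational-valued invariant norm. -/
structure InvNorm (F I : Type) [Group F] where
  /-- the norm -/
  nn : E F I → ℝ
  nonneg : ∀ v, 0 ≤ nn v
  add_le : ∀ v w, nn (v + w) ≤ nn v + nn w
  smul : ∀ (a : ℝ) v, nn (a • v) = |a| * nn v
  eq_zero : ∀ v, nn v = 0 → v = 0
  act : ∀ (g : F) v, nn (act g v) = nn v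
  rat : ∀ v : E F I, (∀ k, ∃ q : ℚ, v k = q) → ∃ q : ℚ, nn v = q

section build

variable {F I : Type} [Group F]

theorem InvNorm.sum_le (P : InvNorm F I) {ι : Type} (s : Finset ι) (a : ι → ℝ) (v : ι → E F I) :
    P.nn (∑ k ∈ s, a k • v k) ≤ ∑ k ∈ s, |a k| * P.nn (v k) := by
  classical
  induction s using Finset.induction_on with
  | empty =>
    have := P.smul 0 0
    simp only [smul_zero, abs_zero, zero_mul] at this
    simp [this]
  | insert x s hx ih =>
    rw [Finset.sum_insert hx, Finset.sum_insert hx]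
    refine (P.add_le _ _).trans ?_
    rw [P.smul]
    linarith

/-- The set generated by `W0`. -/
def gen (W0 : Set (E F I)) : Set (E F I) :=
  insert 0 ((fun p : F × E F I => act p.1 p.2) '' (Set.univ ×ˢ W0) ∪
    (fun p : F × E F I => -act p.1 p.2) '' (Set.univ ×ˢ W0))

theorem mem_gen {W0 : Set (E F I)} {w : E F I} : w ∈ gen W0 ↔
    w = 0 ∨ ∃ g, ∃ v ∈ W0, w = act g v ∨ w = -act g v := by
  unfold gen
  simp only [Set.mem_insert_iff, Set.mem_union, Set.mem_image, Set.mem_prod, Set.mem_univ,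
    true_and, Prod.exists]
  constructor
  · rintro (h | ⟨g, v, hv, rfl⟩ | ⟨g, v, hv, rfl⟩)
    · exact Or.inl h
    · exact Or.inr ⟨g, v, hv, Or.inl rfl⟩
    · exact Or.inr ⟨g, v, hv, Or.inr rfl⟩
  · rintro (h | ⟨g, v, hv, rfl | rfl⟩)
    · exact Or.inl h
    · exact Or.inr (Or.inl ⟨g, v, hv, rfl⟩)
    · exact Or.inr (Or.inr ⟨g, v, hv, rfl⟩)

theorem gen_self {W0 : Set (E F I)} {w : E F I} (h : w ∈ W0) : w ∈ gen W0 :=
  mem_gen.2 (Or.inr ⟨1, w, h, Or.inl (act_one w).symm⟩)

theorem gen_admissible [Finite F] {W0 : Set (E F I)} (hf : W0.Finite)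
    (hb : ∀ i, bas 1 i ∈ W0) (hd : ∀ i j : I, i ≠ j → bas 1 i - bas 1 j ∈ gen W0) :
    Admissible (gen W0) where
  finite := by
    unfold gen
    exact (((Set.finite_univ.prod hf).image _).union ((Set.finite_univ.prod hf).image _)).insert 0
  zero_mem := mem_gen.2 (Or.inl rfl)
  neg_mem := by
    intro w hw
    rw [mem_gen] at hw ⊢
    rcases hw with h | ⟨g, v, hv, h | h⟩
    · left; rw [h, neg_zero]
    · right; exact ⟨g, v, hv, Or.inr (by rw [h])⟩
    · right; exact ⟨g, v, hv, Or.inl (by rw [h, neg_neg])⟩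
  act_mem := by
    intro f w hw
    rw [mem_gen] at hw ⊢
    rcases hw with h | ⟨g, v, hv, h | h⟩
    · left; rw [h, map_zero]
    · right; exact ⟨f * g, v, hv, Or.inl (by rw [h, act_act])⟩
    · right; exact ⟨f * g, v, hv, Or.inr (by rw [h, map_neg, act_act])⟩
  diff_mem := hd
  bas_mem := by
    intro g i
    exact mem_gen.2 (Or.inr ⟨g, bas 1 i, hb i, Or.inl (by rw [act_bas, mul_one])⟩)

theorem gen_partNorm (P : InvNorm F I) (W : Set (E F I)) : PartNorm W P.nn where
  nonneg w _ := P.nonneg w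
  eq_zero_iff w _ := ⟨P.eq_zero w, by
    rintro rfl
    have := P.smul 0 0
    simpa using this⟩
  smul w _ a _ := P.smul a w
  sum_le w _ m a v _ h := by
    rw [h]
    exact P.sum_le univ a v
  act g w _ := P.act g w

theorem gen_rat {W0 : Set (E F I)} (h : ∀ w ∈ W0, ∀ k, ∃ q : ℚ, w k = q) :
    ∀ w ∈ gen W0, ∀ k, ∃ q : ℚ, w k = q := by
  rintro w hw ⟨f, i⟩
  rw [mem_gen] at hw
  rcases hw with rfl | ⟨g, v, hv, rfl | rfl⟩
  · exact ⟨0, by simp⟩
  · rw [act_apply]; exact h v hv _
  · obtain ⟨q, hq⟩ := h v hv (g⁻¹ * f, i)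
    refine ⟨-q, ?_⟩
    rw [Finsupp.neg_apply, act_apply, hq]
    push_cast
    rfl

/-- The action built from an invariant norm `P` and a finite rational set `W0`. -/
def build [Finite F] [Finite I] [Nonempty I] (P : InvNorm F I) (W0 : Set (E F I))
    (hf : W0.Finite) (hb : ∀ i, bas 1 i ∈ W0)
    (hd : ∀ i j : I, i ≠ j → bas 1 i - bas 1 j ∈ gen W0)
    (hr : ∀ w ∈ W0, ∀ k, ∃ q : ℚ, w k = q) : RatAction where
  F := F
  I := I
  finF := inferInstance
  finI := inferInstance
  neI := inferInstance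
  N := fun x => (exists_isLeast (gen_admissible hf hb hd) (gen_partNorm P (gen W0)) x).choose
  pres := ⟨gen W0, P.nn, gen_admissible hf hb hd, gen_partNorm P _, gen_rat hr,
    fun w hw => P.rat w (gen_rat hr w hw),
    fun x => (exists_isLeast (gen_admissible hf hb hd) (gen_partNorm P (gen W0)) x).choose_spec⟩

section

variable [Finite F] [Finite I] [Nonempty I] {P : InvNorm F I} {W0 : Set (E F I)}
    {hf : W0.Finite} {hb : ∀ i, bas 1 i ∈ W0}
    {hd : ∀ i j : I, i ≠ j → bas 1 i - bas 1 j ∈ gen W0}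
    {hr : ∀ w ∈ W0, ∀ k, ∃ q : ℚ, w k = q}

theorem build_isLeast (x : E F I) :
    IsLeast (costs (gen W0) P.nn x) ((build P W0 hf hb hd hr).N x) :=
  (exists_isLeast (gen_admissible hf hb hd) (gen_partNorm P (gen W0)) x).choose_spec

theorem build_ge (x : E F I) : P.nn x ≤ (build P W0 hf hb hd hr).N x := by
  obtain ⟨m, b, w, hw, hx, hr'⟩ := (build_isLeast (hf := hf) (hb := hb) (hd := hd) (hr := hr)
    (P := P) x).1
  rw [hr']
  conv_lhs => rw [hx]
  exact P.sum_le univ b w

theorem build_le {x : E F I} (hx : x ∈ gen W0) : (build P W0 hf hb hd hr).N x ≤ P.nn x := by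
  refine (build_isLeast (hf := hf) (hb := hb) (hd := hd) (hr := hr) (P := P) x).2 ?_
  have := costs_mem (n := P.nn) hx 1
  simpa using this

theorem build_le2 {x y z : E F I} {a b : ℝ} (hx : x ∈ W0) (hy : y ∈ W0)
    (hz : z = a • x + b • y) :
    (build P W0 hf hb hd hr).N z ≤ |a| * P.nn x + |b| * P.nn y := by
  refine (build_isLeast (hf := hf) (hb := hb) (hd := hd) (hr := hr) (P := P) z).2 ?_
  rw [hz]
  exact costs_add (costs_mem (gen_self hx) a) (costs_mem (gen_self hy) b)

end

end build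


section special

variable {F : Type} [Group F] [Fintype F]

/-- the functional with labels `p = (1,0)` at `k` and `q = (0,1)` elsewhere -/
def nu (k : F) (v : E F (Fin 2)) : ℝ := v (k, 0) - v (k, 1) + ∑ g, v (g, 1)

theorem nu_add (k : F) (v w : E F (Fin 2)) : nu k (v + w) = nu k v + nu k w := by
  unfold nu
  simp only [Finsupp.add_apply, Finset.sum_add_distrib]
  ring

theorem nu_smul (k : F) (a : ℝ) (v : E F (Fin 2)) : nu k (a • v) = a * nu k v := by
  unfold nu
  simp only [Finsupp.smul_apply, smul_eq_mul, ← Finset.mul_sum]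
  ring

theorem nu_sub (k : F) (v w : E F (Fin 2)) : nu k (v - w) = nu k v - nu k w := by
  unfold nu
  simp only [Finsupp.sub_apply, Finset.sum_sub_distrib]
  ring

theorem nu_act (k g : F) (v : E F (Fin 2)) : nu k (act g v) = nu (g⁻¹ * k) v := by
  unfold nu
  simp only [act_apply]
  congr 1
  exact Equiv.sum_comp (Equiv.mulLeft g⁻¹) (fun h => v (h, 1))

/-- one term of the supremum -/
def trm (v : E F (Fin 2)) (k : F) : ℝ := max |nu k v| (max (|v (k, 0)| / 2) (|v (k, 1)| / 2))

/-- the norm -/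
def nnB (v : E F (Fin 2)) : ℝ := ⨆ k : F, trm v k

theorem trm_le (v : E F (Fin 2)) (k : F) : trm v k ≤ nnB v :=
  le_ciSup (Set.finite_range _).bddAbove k

theorem trm_nonneg (v : E F (Fin 2)) (k : F) : 0 ≤ trm v k := le_max_of_le_left (abs_nonneg _)

theorem nnB_nonneg (v : E F (Fin 2)) : 0 ≤ nnB v := (trm_nonneg v 1).trans (trm_le v 1)

theorem nnB_le {v : E F (Fin 2)} {c : ℝ} (h1 : ∀ k, |nu k v| ≤ c)
    (h2 : ∀ k i, |v (k, i)| ≤ 2 * c) : nnB v ≤ c := by
  refine ciSup_le fun k => max_le (h1 k) (max_le ?_ ?_)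
  · linarith [h2 k 0]
  · linarith [h2 k 1]

theorem nu_le (v : E F (Fin 2)) (k : F) : |nu k v| ≤ nnB v := (le_max_left _ _).trans (trm_le v k)

theorem co_le (v : E F (Fin 2)) (k : F) (i : Fin 2) : |v (k, i)| ≤ 2 * nnB v := by
  have h := trm_le v k
  have h1 : |v (k, 0)| / 2 ≤ trm v k := (le_max_left _ _).trans (le_max_right _ _)
  have h2 : |v (k, 1)| / 2 ≤ trm v k := (le_max_right _ _).trans (le_max_right _ _)
  fin_cases i
  · simp only [Fin.zero_eta]; linarith
  · simp only [Fin.mk_one]; linarith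

theorem nnB_smul_le (a : ℝ) (v : E F (Fin 2)) : nnB (a • v) ≤ |a| * nnB v := by
  refine nnB_le (fun k => ?_) (fun k i => ?_)
  · rw [nu_smul, abs_mul]
    exact mul_le_mul_of_nonneg_left (nu_le v k) (abs_nonneg _)
  · rw [Finsupp.smul_apply, smul_eq_mul, abs_mul]
    have := mul_le_mul_of_nonneg_left (co_le v k i) (abs_nonneg a)
    linarith

/-- the invariant norm for `B` and `C` -/
def PB (F : Type) [Group F] [Fintype F] : InvNorm F (Fin 2) where
  nn := nnB
  nonneg := nnB_nonneg
  add_le v w := by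
    refine nnB_le (fun k => ?_) (fun k i => ?_)
    · rw [nu_add]
      exact (abs_add_le _ _).trans (add_le_add (nu_le v k) (nu_le w k))
    · rw [Finsupp.add_apply]
      have := (abs_add_le (v (k, i)) (w (k, i))).trans (add_le_add (co_le v k i) (co_le w k i))
      linarith
  smul a v := by
    apply le_antisymm (nnB_smul_le a v)
    rcases eq_or_ne a 0 with rfl | ha
    · rw [abs_zero, zero_mul]; exact nnB_nonneg _
    · have h := nnB_smul_le a⁻¹ (a • v)
      rw [smul_smul, inv_mul_cancel₀ ha, one_smul, abs_inv] at h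
      have ha' : 0 < |a| := abs_pos.2 ha
      rw [inv_mul_eq_div, le_div_iff₀ ha'] at h
      linarith
  eq_zero v h := by
    ext ⟨k, i⟩
    have := co_le v k i
    rw [h, mul_zero] at this
    exact abs_nonpos_iff.1 this
  act g v := by
    have key : ∀ (g : F) (v : E F (Fin 2)), nnB (act g v) ≤ nnB v := by
      intro g v
      refine nnB_le (fun k => ?_) (fun k i => ?_)
      · rw [nu_act]; exact nu_le _ _
      · rw [act_apply]; exact co_le _ _ _
    apply le_antisymm (key g v)
    have h := key g⁻¹ (act g v)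
    rwa [act_act, inv_mul_cancel, act_one] at h
  rat v hv := by
    choose q hq using hv
    obtain ⟨k, hk⟩ := exists_eq_ciSup_of_finite (f := trm v)
    refine ⟨max |q (k, 0) - q (k, 1) + ∑ g, q (g, 1)| (max (|q (k, 0)| / 2) (|q (k, 1)| / 2)), ?_⟩
    unfold nnB
    rw [← hk]
    unfold trm nu
    simp only [hq]
    push_cast
    rfl

/-- `s_g = x_{g,0} + x_{g,1}` -/
def ss (g : F) : E F (Fin 2) := bas g 0 + bas g 1

/-- `∑ x_{g,0}` -/
def XX (F : Type) [Group F] [Fintype F] : E F (Fin 2) := ∑ g : F, bas g 0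

open Classical in
theorem bas_apply (g h : F) (i j : Fin 2) :
    (bas g i : E F (Fin 2)) (h, j) = if h = g ∧ j = i then 1 else 0 := by
  unfold bas
  rw [Finsupp.single_apply]
  refine if_congr ?_ rfl rfl
  rw [Prod.mk.injEq]
  exact ⟨fun h => ⟨h.1.symm, h.2.symm⟩, fun h => ⟨h.1.symm, h.2.symm⟩⟩

open Classical in
theorem nu_bas0 (k g : F) : nu k (bas g 0) = if k = g then 1 else 0 := by
  unfold nu
  simp [bas_apply]

open Classical in
theorem nu_bas1 (k g : F) : nu k (bas g 1) = 1 - if k = g then 1 else 0 := by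
  unfold nu
  simp [bas_apply]
  ring

theorem nu_ss (k g : F) : nu k (ss g) = 1 := by
  unfold ss
  rw [nu_add, nu_bas0, nu_bas1]
  ring

theorem XX_apply0 (k : F) : XX F (k, 0) = 1 := by
  classical
  unfold XX
  rw [Finsupp.finsetSum_apply]
  simp [bas_apply]

theorem XX_apply1 (k : F) : XX F (k, 1) = 0 := by
  classical
  unfold XX
  rw [Finsupp.finsetSum_apply]
  simp [bas_apply]

theorem nu_XX (k : F) : nu k (XX F) = 1 := by
  unfold nu
  rw [XX_apply0, XX_apply1]
  simp [XX_apply1]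

open Classical in
theorem ss_apply (g h : F) (j : Fin 2) : (ss g) (h, j) = if h = g then 1 else 0 := by
  unfold ss
  rw [Finsupp.add_apply, bas_apply, bas_apply]
  fin_cases j <;> simp

theorem nn_ss (g : F) : nnB (ss g) ≤ 1 := by
  classical
  refine nnB_le (fun k => by rw [nu_ss]; simp) (fun k i => ?_)
  rw [ss_apply]
  split_ifs <;> norm_num

theorem nn_ss2 (g h : F) : nnB ((2 : ℝ) • ss g - ss h) ≤ 1 := by
  classical
  refine nnB_le (fun k => by rw [nu_sub, nu_smul, nu_ss, nu_ss]; norm_num) (fun k i => ?_)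
  rw [Finsupp.sub_apply, Finsupp.smul_apply, ss_apply, ss_apply]
  split_ifs <;> norm_num

theorem nn_XX : nnB (XX F) ≤ 1 := by
  refine nnB_le (fun k => by rw [nu_XX]; simp) (fun k i => ?_)
  fin_cases i
  · simp only [Fin.zero_eta, XX_apply0]; norm_num
  · simp only [Fin.mk_one, XX_apply1]; norm_num

theorem nn_XX2 (g : F) : nnB ((2 : ℝ) • ss g - XX F) ≤ 1 := by
  classical
  refine nnB_le (fun k => by rw [nu_sub, nu_smul, nu_ss, nu_XX]; norm_num) (fun k i => ?_)
  rw [Finsupp.sub_apply, Finsupp.smul_apply, ss_apply]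
  fin_cases i
  · simp only [Fin.zero_eta, XX_apply0]
    split_ifs <;> norm_num
  · simp only [Fin.mk_one, XX_apply1]
    split_ifs <;> norm_num

theorem nn_diff (g : F) : nnB (bas g 0 - bas g 1) ≤ 1 := by
  classical
  refine nnB_le (fun k => ?_) (fun k i => ?_)
  · rw [nu_sub, nu_bas0, nu_bas1]
    split_ifs <;> norm_num
  · rw [Finsupp.sub_apply, bas_apply, bas_apply]
    split_ifs <;> norm_num

/-- generating set for `B`, `C` -/
def W0B (F : Type) [Group F] [Fintype F] : Set (E F (Fin 2)) :=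
  Set.range (fun i => bas (1 : F) i) ∪ {bas 1 0 - bas 1 1, ss 1, XX F, (2 : ℝ) • ss 1 - XX F} ∪
    Set.range (fun g => (2 : ℝ) • ss 1 - ss g)

theorem ratB : ∀ w ∈ W0B F, ∀ k, ∃ q : ℚ, w k = q := by
  classical
  have hb : ∀ (g : F) (i : Fin 2) (k : F × Fin 2), ∃ q : ℚ, (bas g i : E F (Fin 2)) k = q := by
    rintro g i ⟨h, j⟩
    rw [bas_apply]
    split_ifs
    · exact ⟨1, by simp⟩
    · exact ⟨0, by simp⟩
  have hadd : ∀ (v w : E F (Fin 2)), (∀ k, ∃ q : ℚ, v k = q) → (∀ k, ∃ q : ℚ, w k = q) →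
      ∀ k, ∃ q : ℚ, (v + w) k = q := by
    intro v w hv hw k
    obtain ⟨a, ha⟩ := hv k
    obtain ⟨b, hb⟩ := hw k
    exact ⟨a + b, by rw [Finsupp.add_apply, ha, hb]; push_cast; rfl⟩
  have hsub : ∀ (v w : E F (Fin 2)), (∀ k, ∃ q : ℚ, v k = q) → (∀ k, ∃ q : ℚ, w k = q) →
      ∀ k, ∃ q : ℚ, (v - w) k = q := by
    intro v w hv hw k
    obtain ⟨a, ha⟩ := hv k
    obtain ⟨b, hb⟩ := hw k
    exact ⟨a - b, by rw [Finsupp.sub_apply, ha, hb]; push_cast; rfl⟩
  have h2 : ∀ (v : E F (Fin 2)), (∀ k, ∃ q : ℚ, v k = q) →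
      ∀ k, ∃ q : ℚ, ((2 : ℝ) • v) k = q := by
    intro v hv k
    obtain ⟨a, ha⟩ := hv k
    exact ⟨2 * a, by rw [Finsupp.smul_apply, ha]; push_cast; rfl⟩
  have hs : ∀ g : F, ∀ k, ∃ q : ℚ, (ss g) k = q := fun g => hadd _ _ (hb g 0) (hb g 1)
  have hX : ∀ k, ∃ q : ℚ, (XX F) k = q := by
    rintro ⟨h, j⟩
    fin_cases j
    · exact ⟨1, by simp [XX_apply0]⟩
    · exact ⟨0, by simp [XX_apply1]⟩
  intro w hw
  rcases hw with (⟨i, rfl⟩ | h) | ⟨g, rfl⟩
  · exact hb 1 i
  · simp only [Set.mem_insert_iff, Set.mem_singleton_iff] at h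
    rcases h with rfl | rfl | rfl | rfl
    · exact hsub _ _ (hb 1 0) (hb 1 1)
    · exact hs 1
    · exact hX
    · exact hsub _ _ (h2 _ (hs 1)) hX
  · exact hsub _ _ (h2 _ (hs 1)) (hs g)

theorem diff_gen {F : Type} [Group F] {W0 : Set (E F (Fin 2))} (h : bas 1 0 - bas 1 1 ∈ W0) :
    ∀ i j : Fin 2, i ≠ j → bas 1 i - bas 1 j ∈ gen W0 := by
  intro i j hij
  fin_cases i <;> fin_cases j
  · exact absurd rfl hij
  · exact gen_self h
  · refine mem_gen.2 (Or.inr ⟨1, _, h, Or.inr ?_⟩)
    rw [act_one, neg_sub]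
    rfl
  · exact absurd rfl hij

/-- the action with group `F` -/
def actB (F : Type) [Group F] [Fintype F] : RatAction :=
  build (PB F) (W0B F)
    (((Set.finite_range _).union (by simp)).union (Set.finite_range _))
    (fun i => Or.inl (Or.inl ⟨i, rfl⟩)) (diff_gen (Or.inl (Or.inr (by simp)))) ratB

theorem actB_ge (x : E F (Fin 2)) : nnB x ≤ (actB F).N x := build_ge (P := PB F) x

theorem actB_le {x : E F (Fin 2)} (hx : x ∈ gen (W0B F)) : (actB F).N x ≤ nnB x :=
  build_le (P := PB F) hx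

theorem W_d : (bas 1 0 - bas 1 1 : E F (Fin 2)) ∈ W0B F := Or.inl (Or.inr (by simp))
theorem W_s : ss (1 : F) ∈ W0B F := Or.inl (Or.inr (by simp))
theorem W_X : XX F ∈ W0B F := Or.inl (Or.inr (by simp))
theorem W_X2 : (2 : ℝ) • ss (1 : F) - XX F ∈ W0B F := Or.inl (Or.inr (by simp))
theorem W_s2 (g : F) : (2 : ℝ) • ss (1 : F) - ss g ∈ W0B F := Or.inr ⟨g, rfl⟩

/-- the value on the copy of `A` -/
theorem actB_copy (a b : ℝ) (k : F) (hk : k ≠ 1) :
    (actB F).N (a • bas 1 0 + b • bas 1 1 : E F (Fin 2)) = max |a| |b| := by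
  apply le_antisymm
  · have hz : (a • bas 1 0 + b • bas 1 1 : E F (Fin 2)) =
        ((a + b) / 2) • ss 1 + ((a - b) / 2) • (bas 1 0 - bas 1 1) := by
      unfold ss
      module
    have h := build_le2 (P := PB F) (W0 := W0B F)
      (hf := ((Set.finite_range _).union (by simp)).union (Set.finite_range _))
      (hb := fun i => Or.inl (Or.inl ⟨i, rfl⟩)) (hd := diff_gen (Or.inl (Or.inr (by simp))))
      (hr := ratB) W_s W_d hz
    refine h.trans ?_
    have h1 : (PB F).nn (ss 1) ≤ 1 := nn_ss 1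
    have h2 : (PB F).nn (bas 1 0 - bas 1 1) ≤ 1 := nn_diff 1
    calc _ ≤ |(a + b) / 2| * 1 + |(a - b) / 2| * 1 := by gcongr
      _ ≤ max |a| |b| := by
        rw [mul_one, mul_one]
        rcases abs_cases ((a + b) / 2) with h3 | h3 <;> rcases abs_cases ((a - b) / 2) with h4 | h4 <;>
          rcases abs_cases a with h5 | h5 <;> rcases abs_cases b with h6 | h6 <;>
          rcases max_cases |a| |b| with h7 | h7 <;> linarith
  · refine le_trans ?_ (actB_ge _)
    refine max_le ?_ ?_
    · have h := nu_le (a • bas 1 0 + b • bas 1 1 : E F (Fin 2)) 1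
      have h2 : nu 1 (a • bas 1 0 + b • bas 1 1 : E F (Fin 2)) = a := by
        rw [nu_add, nu_smul, nu_smul, nu_bas0, nu_bas1]
        simp
      rw [h2] at h
      exact h
    · have h := nu_le (a • bas 1 0 + b • bas 1 1 : E F (Fin 2)) k
      have h2 : nu k (a • bas 1 0 + b • bas 1 1 : E F (Fin 2)) = b := by
        rw [nu_add, nu_smul, nu_smul, nu_bas0, nu_bas1, if_neg hk]
        simp
      rw [h2] at h
      exact h

/-- the key property of the functionals on `B` and `C` -/
theorem key (L : E F (Fin 2) →ₗ[ℝ] ℝ) (hL : ∀ x, L x ≤ (actB F).N x) (h1 : L (ss 1) = 1) :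
    (∀ g, L (ss g) = 1) ∧ ∑ g : F, L (bas g 0) = 1 := by
  have hs : ∀ g : F, ss g ∈ gen (W0B F) := by
    intro g
    refine mem_gen.2 (Or.inr ⟨g, ss 1, W_s, Or.inl ?_⟩)
    unfold ss
    rw [map_add, act_bas, act_bas, mul_one]
  refine ⟨fun g => le_antisymm ?_ ?_, ?_⟩
  · exact (hL _).trans ((actB_le (hs g)).trans (nn_ss g))
  · have h := (hL _).trans ((actB_le (gen_self (W_s2 g))).trans (nn_ss2 1 g))
    rw [map_sub, map_smul, h1, smul_eq_mul] at h
    linarith
  · have h2 : L (XX F) = ∑ g : F, L (bas g 0) := by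
      unfold XX
      rw [map_sum]
    rw [← h2]
    apply le_antisymm
    · exact (hL _).trans ((actB_le (gen_self W_X)).trans nn_XX)
    · have h := (hL _).trans ((actB_le (gen_self W_X2)).trans (nn_XX2 1))
      rw [map_sub, map_smul, h1, smul_eq_mul] at h
      linarith

end special

section trivialGroup

/-- the invariant norm for `A` -/
def PA : InvNorm Unit (Fin 2) where
  nn v := max |v ((), 0)| |v ((), 1)|
  nonneg v := le_max_of_le_left (abs_nonneg _)
  add_le v w := by
    refine max_le ?_ ?_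
    · rw [Finsupp.add_apply]
      exact (abs_add_le _ _).trans (add_le_add (le_max_left _ _) (le_max_left _ _))
    · rw [Finsupp.add_apply]
      exact (abs_add_le _ _).trans (add_le_add (le_max_right _ _) (le_max_right _ _))
  smul a v := by
    rw [Finsupp.smul_apply, Finsupp.smul_apply, smul_eq_mul, smul_eq_mul, abs_mul, abs_mul,
      mul_max_of_nonneg _ _ (abs_nonneg a)]
  eq_zero v h := by
    have h1 : |v ((), 0)| ≤ 0 := h ▸ le_max_left _ _
    have h2 : |v ((), 1)| ≤ 0 := h ▸ le_max_right _ _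
    ext ⟨k, i⟩
    fin_cases i
    · exact abs_nonpos_iff.1 h1
    · exact abs_nonpos_iff.1 h2
  act g v := by
    rw [act_apply, act_apply]
  rat v hv := by
    choose q hq using hv
    refine ⟨max |q ((), 0)| |q ((), 1)|, ?_⟩
    simp only [hq]
    push_cast
    rfl

/-- generating set for `A` -/
def W0A : Set (E Unit (Fin 2)) :=
  Set.range (fun i => bas () i) ∪ {bas () 0 - bas () 1, bas () 0 + bas () 1}

theorem ratA : ∀ w ∈ W0A, ∀ k, ∃ q : ℚ, w k = q := by
  have hb : ∀ (i : Fin 2) (k : Unit × Fin 2), ∃ q : ℚ, (bas () i : E Unit (Fin 2)) k = q := by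
    rintro i ⟨h, j⟩
    unfold bas
    rw [Finsupp.single_apply]
    split_ifs
    · exact ⟨1, by simp⟩
    · exact ⟨0, by simp⟩
  intro w hw k
  rcases hw with ⟨i, rfl⟩ | h
  · exact hb i k
  · obtain ⟨a, ha⟩ := hb 0 k
    obtain ⟨b, hb⟩ := hb 1 k
    simp only [Set.mem_insert_iff, Set.mem_singleton_iff] at h
    rcases h with rfl | rfl
    · exact ⟨a - b, by rw [Finsupp.sub_apply, ha, hb]; push_cast; rfl⟩
    · exact ⟨a + b, by rw [Finsupp.add_apply, ha, hb]; push_cast; rfl⟩

/-- the action `A` of the trivial group -/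
def actA : RatAction :=
  build PA W0A ((Set.finite_range _).union (by simp)) (fun i => Or.inl ⟨i, rfl⟩)
    (diff_gen (Or.inr (Or.inl rfl))) ratA

theorem actA_N (v : E Unit (Fin 2)) : actA.N v = max |v ((), 0)| |v ((), 1)| := by
  apply le_antisymm
  · have hz : v = ((v ((), 0) + v ((), 1)) / 2) • (bas () 0 + bas () 1) +
        ((v ((), 0) - v ((), 1)) / 2) • (bas () 0 - bas () 1) := by
      ext ⟨k, i⟩
      fin_cases i
      · simp [bas]; ring
      · simp [bas]; ring
    have h := build_le2 (P := PA) (W0 := W0A)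
      (hf := (Set.finite_range _).union (by simp)) (hb := fun i => Or.inl ⟨i, rfl⟩)
      (hd := diff_gen (Or.inr (Or.inl rfl))) (hr := ratA) (Or.inr (Or.inr rfl))
      (Or.inr (Or.inl rfl)) hz
    refine h.trans ?_
    have h1 : PA.nn (bas () 0 + bas () 1) ≤ 1 := by
      simp [PA, bas]
    have h2 : PA.nn (bas () 0 - bas () 1) ≤ 1 := by
      simp [PA, bas]
    set a := v ((), 0)
    set b := v ((), 1)
    calc _ ≤ |(a + b) / 2| * 1 + |(a - b) / 2| * 1 := by gcongr
      _ ≤ max |a| |b| := by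
        rw [mul_one, mul_one]
        rcases abs_cases ((a + b) / 2) with h3 | h3 <;> rcases abs_cases ((a - b) / 2) with h4 | h4 <;>
          rcases abs_cases a with h5 | h5 <;> rcases abs_cases b with h6 | h6 <;>
          rcases max_cases |a| |b| with h7 | h7 <;> linarith
  · exact build_ge (P := PA) v

theorem emb_iso (F : Type) [Group F] [Fintype F] [Nontrivial F] (v : E Unit (Fin 2)) :
    (actB F).N (Finsupp.lmapDomain ℝ ℝ (Prod.map (1 : Unit →* F) (id : Fin 2 → Fin 2)) v :
      E F (Fin 2)) = actA.N v := by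
  obtain ⟨k, hk⟩ := exists_ne (1 : F)
  have h1 : (Finsupp.lmapDomain ℝ ℝ (Prod.map (1 : Unit →* F) (id : Fin 2 → Fin 2)) v :
      E F (Fin 2)) = v ((), 0) • bas 1 0 + v ((), 1) • bas 1 1 := by
    have hz : v = v ((), 0) • bas () 0 + v ((), 1) • bas () 1 := by
      ext ⟨k, i⟩
      fin_cases i
      · simp [bas]
      · simp [bas]
    conv_lhs => rw [hz]
    rw [map_add, map_smul, map_smul]
    simp [bas, Finsupp.mapDomain_single]
  rw [h1, actB_copy _ _ k hk, actA_N]

/-- the embedding of `A` into `B` or `C` -/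
def embAB (F : Type) [Group F] [Fintype F] [Nontrivial F] : Emb actA (actB F) where
  phi := (1 : Unit →* F)
  phi_inj := fun _ _ _ => rfl
  psi := (id : Fin 2 → Fin 2)
  psi_inj := Function.injective_id
  isometric := emb_iso F

end trivialGroup

section final

theorem D_add {D : RatAction} (x y : E D.F D.I) : D.N (x + y) ≤ D.N x + D.N y := by
  obtain ⟨W, n, hW, hn, -, -, hN⟩ := D.pres
  exact (hN _).2 (costs_add (hN x).1 (hN y).1)

theorem D_smul {D : RatAction} (c : ℝ) (hc : 0 < c) (x : E D.F D.I) :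
    D.N (c • x) = c * D.N x := by
  obtain ⟨W, n, hW, hn, -, -, hN⟩ := D.pres
  apply le_antisymm
  · have h := (hN _).2 (costs_smul c (hN x).1)
    rwa [abs_of_pos hc] at h
  · have h := (hN _).2 (costs_smul c⁻¹ (hN (c • x)).1)
    rw [smul_smul, inv_mul_cancel₀ hc.ne', one_smul, abs_of_pos (inv_pos.2 hc), inv_mul_eq_div,
      le_div_iff₀ hc] at h
    linarith

theorem D_neg {D : RatAction} (c : ℝ) (x : E D.F D.I) : D.N (c • x) ≤ |c| * D.N x := by
  obtain ⟨W, n, hW, hn, -, -, hN⟩ := D.pres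
  exact (hN _).2 (costs_smul c (hN x).1)

theorem D_nonneg {D : RatAction} (x : E D.F D.I) : 0 ≤ D.N x := by
  obtain ⟨W, n, hW, hn, -, -, hN⟩ := D.pres
  exact costs_nonneg hn (hN x).1

theorem D_act {D : RatAction} (g : D.F) (x : E D.F D.I) : D.N (act g x) ≤ D.N x := by
  obtain ⟨W, n, hW, hn, -, -, hN⟩ := D.pres
  exact (hN _).2 (costs_act hW hn g (hN x).1)

/-- A functional of norm one norming a given vector. -/
theorem exists_functional {D : RatAction} (s : E D.F D.I) (hs : D.N s = 1) :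
    ∃ L : E D.F D.I →ₗ[ℝ] ℝ, L s = 1 ∧ ∀ x, L x ≤ D.N x := by
  have hs0 : s ≠ 0 := by
    rintro rfl
    have h := D_neg (D := D) 0 0
    rw [zero_smul, abs_zero, zero_mul, hs] at h
    linarith
  obtain ⟨f, hfd⟩ : ∃ f : E D.F D.I →ₗ.[ℝ] ℝ, f = LinearPMap.mkSpanSingleton s (1 : ℝ) hs0 :=
    ⟨_, rfl⟩
  have hdom : f.domain = Submodule.span ℝ {s} := by rw [hfd]; rfl
  have h0 : ∀ (c : ℝ) (hx : c • s ∈ f.domain), f ⟨c • s, hx⟩ = c := by
    subst hfd
    intro c hx
    have hH : ∀ c : ℝ, c • s = 0 → c • (1 : ℝ) = 0 := fun c hc => by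
      rw [(smul_eq_zero.1 hc).resolve_right hs0]; simp
    have := LinearPMap.mkSpanSingleton'_apply (σ := RingHom.id ℝ) s (1 : ℝ) hH c hx
    rw [RingHom.id_apply, smul_eq_mul, mul_one] at this
    exact this
  obtain ⟨g, hg1, hg2⟩ := exists_extension_of_le_sublinear f D.N (fun c hc x => D_smul c hc x)
    (fun x y => D_add x y) (by
      rintro ⟨x, hx⟩
      obtain ⟨c, rfl⟩ := Submodule.mem_span_singleton.1 (hdom ▸ hx)
      rw [h0]
      rcases le_or_gt c 0 with h | h
      · exact h.trans (D_nonneg _)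
      · rw [D_smul c h, hs, mul_one])
  refine ⟨g, ?_, hg2⟩
  have hx : (1 : ℝ) • s ∈ f.domain := by
    rw [hdom, one_smul]; exact Submodule.mem_span_singleton_self s
  have h := hg1 ⟨(1 : ℝ) • s, hx⟩
  rw [h0] at h
  simpa using h

/-- the norm of `actB F`, with simplified types -/
def NB (F : Type) [Group F] [Fintype F] : E F (Fin 2) → ℝ := (actB F).N

theorem unpack {D : RatAction} {F : Type} [Group F] [Fintype F] (f : Emb (actB F) D) :
    ∃ (phi : F →* D.F) (psi : Fin 2 → D.I),
      (∀ v : E F (Fin 2), D.N (Finsupp.lmapDomain ℝ ℝ (Prod.map phi psi) v) = NB F v) ∧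
      ∀ i : Fin 2, f.psi i = psi i :=
  ⟨f.phi, f.psi, f.isometric, fun _ => rfl⟩

/-- one step for an embedding of `actB F` into `D` -/
theorem step {D : RatAction} {F : Type} [Group F] [Fintype F] (phi : F →* D.F)
    (psi : Fin 2 → D.I)
    (hf : ∀ v : E F (Fin 2), D.N (Finsupp.lmapDomain ℝ ℝ (Prod.map phi psi) v) = NB F v)
    (L : E D.F D.I →ₗ[ℝ] ℝ) (hL : ∀ x, L x ≤ D.N x) (h : D.F)
    (h1 : L (bas h (psi 0) + bas h (psi 1)) = 1) :
    (∀ g : F, L (bas (h * phi g) (psi 0) + bas (h * phi g) (psi 1)) = 1) ∧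
      ∑ g : F, L (bas (h * phi g) (psi 0)) = 1 := by
  let M : E F (Fin 2) →ₗ[ℝ] ℝ := (L.comp (act h)).comp
    (Finsupp.lmapDomain ℝ ℝ (Prod.map phi psi) : E F (Fin 2) →ₗ[ℝ] E D.F D.I)
  have hM : ∀ x, M x ≤ (actB F).N x := by
    intro x
    have h2 := hf x
    change M x ≤ NB F x
    rw [← h2]
    exact (hL _).trans (D_act h _)
  have hb : ∀ (g : F) (i : Fin 2), M (bas g i) = L (bas (h * phi g) (psi i)) := by
    intro g i
    have h3 : (Finsupp.lmapDomain ℝ ℝ (Prod.map phi psi) : E F (Fin 2) →ₗ[ℝ] E D.F D.I)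
        (bas g i) = bas (phi g) (psi i) := by
      unfold bas
      rw [Finsupp.lmapDomain_apply, Finsupp.mapDomain_single]
      rfl
    change L (act h ((Finsupp.lmapDomain ℝ ℝ (Prod.map phi psi) :
      E F (Fin 2) →ₗ[ℝ] E D.F D.I) (bas g i))) = _
    rw [h3, act_bas]
  have hs : ∀ g : F, M (ss g) = L (bas (h * phi g) (psi 0) + bas (h * phi g) (psi 1)) := by
    intro g
    unfold ss
    rw [map_add, hb, hb, map_add]
  have h4 : M (ss 1) = 1 := by
    rw [hs, map_one, mul_one]
    exact h1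
  obtain ⟨k1, k2⟩ := key M hM h4
  refine ⟨fun g => by rw [← hs]; exact k1 g, ?_⟩
  rw [← k2]
  exact Finset.sum_congr rfl fun g _ => (hb g 0).symm

/-- counting -/
theorem count {H F : Type} [Group H] [Fintype H] [Group F] [Fintype F] (phi : F →* H)
    (t : H → ℝ) (U : Finset H) (h1 : ∀ h ∈ U, ∀ g : F, h * phi g ∈ U)
    (h2 : ∀ h ∈ U, ∑ g : F, t (h * phi g) = 1) :
    (Fintype.card F : ℝ) * ∑ h ∈ U, t h = U.card := by
  have h3 : ∑ h ∈ U, ∑ g : F, t (h * phi g) = U.card := by
    rw [Finset.sum_congr rfl h2]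
    simp
  rw [Finset.sum_comm] at h3
  rw [← h3]
  have h4 : ∀ g : F, ∑ h ∈ U, t (h * phi g) = ∑ h ∈ U, t h := by
    intro g
    refine Finset.sum_nbij' (fun h => h * phi g) (fun h => h * phi g⁻¹) (fun h hh => h1 h hh g)
      (fun h hh => h1 h hh g⁻¹) (fun h _ => ?_) (fun h _ => ?_) (fun h _ => rfl)
    · rw [mul_assoc, ← map_mul, mul_inv_cancel, map_one, mul_one]
    · rw [mul_assoc, ← map_mul, inv_mul_cancel, map_one, mul_one]
  rw [Finset.sum_congr rfl fun g _ => h4 g]
  simp

/-- The class of all rational finitely presented actions, over all finite groups and nonempty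
finite index sets, does not have the amalgamation property. -/
theorem result : ¬ Amalgamation := by
  intro hAm
  obtain ⟨D, f₁, f₂, -, hpsi⟩ := hAm actA (actB (Multiplicative (ZMod 3)))
    (actB (Multiplicative (ZMod 2))) (embAB _) (embAB _)
  obtain ⟨phi₁, psi₁, iso₁, hp₁⟩ := unpack f₁
  obtain ⟨phi₂, psi₂, iso₂, hp₂⟩ := unpack f₂
  have hpsi' : ∀ i : Fin 2, psi₁ i = psi₂ i := fun i => by
    rw [← hp₁, ← hp₂]
    exact congrFun hpsi i
  have := D.finF
  have : Fintype D.F := Fintype.ofFinite _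
  classical
  obtain ⟨s, hs⟩ : ∃ s : E D.F D.I, s = bas 1 (psi₁ 0) + bas 1 (psi₁ 1) := ⟨_, rfl⟩
  have hN : D.N s = 1 := by
    have h1 := iso₁ ((1 : ℝ) • bas 1 0 + (1 : ℝ) • bas 1 1)
    have h2 := actB_copy (F := Multiplicative (ZMod 3)) 1 1 (Multiplicative.ofAdd 1) (by decide)
    change NB (Multiplicative (ZMod 3)) _ = _ at h2
    rw [h2] at h1
    have h3 : s = Finsupp.lmapDomain ℝ ℝ (Prod.map phi₁ psi₁)
        ((1 : ℝ) • bas 1 0 + (1 : ℝ) • bas 1 1 : E (Multiplicative (ZMod 3)) (Fin 2)) := by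
      rw [hs, one_smul, one_smul, map_add]
      unfold bas
      rw [Finsupp.lmapDomain_apply, Finsupp.lmapDomain_apply, Finsupp.mapDomain_single,
        Finsupp.mapDomain_single]
      simp only [Prod.map_apply, map_one]
    rw [h3, h1]
    simp
  obtain ⟨L, hL1, hL2⟩ := exists_functional s hN
  let U : Finset D.F := univ.filter (fun h => L (bas h (psi₁ 0) + bas h (psi₁ 1)) = 1)
  have hU1 : (1 : D.F) ∈ U := by
    simp only [U, Finset.mem_filter, Finset.mem_univ, true_and]
    rw [← hs]; exact hL1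
  let t : D.F → ℝ := fun h => L (bas h (psi₁ 0))
  have e1 := count phi₁ t U
    (fun h hh g => by
      simp only [U, Finset.mem_filter, Finset.mem_univ, true_and] at hh ⊢
      exact (step phi₁ psi₁ iso₁ L hL2 h hh).1 g)
    (fun h hh => by
      simp only [U, Finset.mem_filter, Finset.mem_univ, true_and] at hh
      exact (step phi₁ psi₁ iso₁ L hL2 h hh).2)
  have e2 := count phi₂ t U
    (fun h hh g => by
      simp only [U, Finset.mem_filter, Finset.mem_univ, true_and] at hh ⊢
      rw [hpsi', hpsi'] at hh ⊢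
      exact (step phi₂ psi₂ iso₂ L hL2 h hh).1 g)
    (fun h hh => by
      simp only [U, Finset.mem_filter, Finset.mem_univ, true_and] at hh
      rw [hpsi', hpsi'] at hh
      have h5 := (step phi₂ psi₂ iso₂ L hL2 h hh).2
      simp only [t, hpsi']
      exact h5)
  have c1 : Fintype.card (Multiplicative (ZMod 3)) = 3 := by decide
  have c2 : Fintype.card (Multiplicative (ZMod 2)) = 2 := by decide
  rw [c1] at e1
  rw [c2] at e2
  push_cast at e1 e2
  have h6 : (U.card : ℝ) = 0 := by linarith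
  have h7 : U.card = 0 := by exact_mod_cast h6
  rw [Finset.card_eq_zero] at h7
  rw [h7] at hU1
  exact absurd hU1 (Finset.notMem_empty _)

end final

end Pool.Agent.Results.MP_66eb21_an.NoAmalgamation
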